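import Pool.Agent.Work.MP_49e1e0_lc.Main

/-!
The Boolean predicate of arity six that consists of the non-zero words of the binary code
`(x, y, z, x + y, y + z, x + z)` has non-redundancy `Θ(n^(3/2))`.
-/

open Pool.Agent.Work.MP_49e1e0_lc

namespace Pool.Agent.Results.MP_49e1e0_lc.ThreeHalves

theorem result : IsTheta P6 (3 / 2) := theta

end Pool.Agent.Results.MP_49e1e0_lc.ThreeHalves
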